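import Mathlib

/-!
The inequality `‖α‖ ‖α + 2·α‖ ≤ ‖α + α‖²` fails for fractional dilates.
-/

open scoped ENNReal

namespace Pool.Agent.Results.MP_288d1b_co.HalfPoint

/-- `‖α‖`. -/
noncomputable def norm1 (α : ℤ → ℝ≥0∞) : ℝ≥0∞ := ∑' i, α i

/-- `‖α + d·α‖`: the infimum over `0 < p < 1` of `∑_i (∑_{j + d k = i} α(j) α(k))^p`. -/
noncomputable def dilNorm (d : ℤ) (α : ℤ → ℝ≥0∞) : ℝ≥0∞ :=
  ⨅ p ∈ Set.Ioo (0 : ℝ) 1, ∑' i : ℤ, (∑' k : ℤ, α (i - d * k) * α k) ^ p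

/-- The function `c δ_0`. -/
noncomputable def pt (c : ℝ≥0∞) (i : ℤ) : ℝ≥0∞ := if i = 0 then c else 0

lemma inner (c : ℝ≥0∞) (d i : ℤ) :
    ∑' k : ℤ, pt c (i - d * k) * pt c k = if i = 0 then c * c else 0 := by
  rw [tsum_eq_single 0]
  · simp [pt]
  · intro k hk
    simp [pt, hk]

lemma dil_eq (c : ℝ≥0∞) (d : ℤ) :
    dilNorm d (pt c) = ⨅ p ∈ Set.Ioo (0 : ℝ) 1, (c * c) ^ p := by
  unfold dilNorm
  refine iInf_congr fun p => iInf_congr fun hp => ?_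
  rw [tsum_eq_single 0]
  · rw [inner, if_pos rfl]
  · intro i hi
    rw [inner, if_neg hi, ENNReal.zero_rpow_of_pos hp.1]

/-- There is a function `α : ℤ → [0, 1]` with finite sum such that
`‖α‖ ‖α + 2·α‖ > ‖α + α‖²`. -/
theorem result : ∃ α : ℤ → ℝ≥0∞, (∀ i, α i ≤ 1) ∧ ∑' i, α i ≠ ⊤ ∧
    dilNorm 1 α ^ 2 < norm1 α * dilNorm 2 α := by
  have hc : (ENNReal.ofReal (1 / 2)) * (ENNReal.ofReal (1 / 2)) = ENNReal.ofReal (1 / 4) := by
    rw [← ENNReal.ofReal_mul (by norm_num)]; norm_num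
  have hn : ∑' i, pt (ENNReal.ofReal (1 / 2)) i = ENNReal.ofReal (1 / 2) := by
    rw [tsum_eq_single 0]
    · simp [pt]
    · intro i hi; simp [pt, hi]
  refine ⟨pt (ENNReal.ofReal (1 / 2)), fun i => ?_, ?_, ?_⟩
  · unfold pt
    split_ifs
    · rw [← ENNReal.ofReal_one]; exact ENNReal.ofReal_le_ofReal (by norm_num)
    · exact zero_le_one
  · rw [hn]; exact ENNReal.ofReal_ne_top
  · have h1 : dilNorm 1 (pt (ENNReal.ofReal (1 / 2))) ≤ ENNReal.ofReal ((1 / 4) ^ (7 / 8 : ℝ)) := by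
      rw [dil_eq, hc]
      refine (iInf₂_le (7 / 8 : ℝ) ⟨by norm_num, by norm_num⟩).trans ?_
      rw [ENNReal.ofReal_rpow_of_pos (by norm_num)]
    have h2 : ENNReal.ofReal (1 / 4) ≤ dilNorm 2 (pt (ENNReal.ofReal (1 / 2))) := by
      rw [dil_eq, hc]
      refine le_iInf₂ fun p hp => ?_
      rw [ENNReal.ofReal_rpow_of_pos (by norm_num)]
      refine ENNReal.ofReal_le_ofReal ?_
      calc (1 / 4 : ℝ) = (1 / 4 : ℝ) ^ (1 : ℝ) := by rw [Real.rpow_one]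
        _ ≤ (1 / 4 : ℝ) ^ p :=
          Real.rpow_le_rpow_of_exponent_ge (by norm_num) (by norm_num) hp.2.le
    calc dilNorm 1 (pt (ENNReal.ofReal (1 / 2))) ^ 2
        ≤ ENNReal.ofReal ((1 / 4) ^ (7 / 8 : ℝ)) ^ 2 := pow_le_pow_left' h1 2
      _ = ENNReal.ofReal (((1 / 4 : ℝ) ^ (7 / 8 : ℝ)) ^ 2) := by
          rw [ENNReal.ofReal_pow (by positivity)]
      _ < ENNReal.ofReal (1 / 8) := by
          rw [ENNReal.ofReal_lt_ofReal_iff (by norm_num)]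
          have e1 : ((1 / 4 : ℝ) ^ (7 / 8 : ℝ)) ^ 2 = (1 / 2 : ℝ) ^ (7 / 2 : ℝ) := by
            rw [← Real.rpow_natCast, ← Real.rpow_mul (by norm_num),
              show (1 / 4 : ℝ) = (1 / 2 : ℝ) ^ (2 : ℝ) by norm_num,
              ← Real.rpow_mul (by norm_num)]
            norm_num
          have e2 : (1 / 8 : ℝ) = (1 / 2 : ℝ) ^ (3 : ℝ) := by norm_num
          rw [e1, e2]
          exact Real.rpow_lt_rpow_of_exponent_gt (by norm_num) (by norm_num) (by norm_num)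
      _ = ENNReal.ofReal (1 / 2) * ENNReal.ofReal (1 / 4) := by
          rw [← ENNReal.ofReal_mul (by norm_num)]; norm_num
      _ ≤ norm1 (pt (ENNReal.ofReal (1 / 2))) * dilNorm 2 (pt (ENNReal.ofReal (1 / 2))) := by
          unfold norm1
          rw [hn]
          gcongr

end Pool.Agent.Results.MP_288d1b_co.HalfPoint
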